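import Pool.Agent.TH507.ExpD

/-!
# Linear independence of `1`, `e ^ α`, `π`, and polynomial relations between `π` and `e ^ α`

Let `t` be a transcendental number, for instance `π`. For which algebraic numbers `α ≠ 0` can there
be a relation between `t` and `e ^ α`? (For `1`, `e`, `π` the exponent is `α = 1`.)

(1) Linear relations, `t` real: the numbers `1`, `e ^ α`, `t` are linearly independent over the
algebraic numbers for all algebraic `α ≠ 0` with at most one exception, and the exceptional `α`,
if there is one, is a real number.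

(2) Polynomial relations of degree at most `m` in `t` and at most `n` in `e ^ α`, `t` complex: there
are at most `2 N(m, n)` exceptional exponents, where `N(m, n)` is the number of pairs of coprime
numbers `a ≤ m`, `b ≤ n`. For `t = e` there are exactly `2 N(m, n)`.

Proof of (2). By the theorem of Lindemann and Weierstrass any two exceptional exponents are rational
multiples of each other. Let `[K(t, e ^ α) : K(e ^ α)] = a` and `[K(t, e ^ α) : K(t)] = b`, with `K`
the field of algebraic numbers. The tower law for the fields between `K(t, e ^ (α / q))` and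
`K(e ^ (p α / q))`, `K(t)` shows that the ratio `a / b` is multiplied by `|r|` when `α` is replaced
by `r α`. So the reduced fraction `a / b` determines `α` up to its sign.
-/

set_option autoImplicit false

namespace Pool.Agent.Results.MP_58e087_nt.ExceptionalExponents

open Finset

/-- `1`, `e ^ α`, `t` are linearly independent over the field of algebraic numbers. -/
def LinIndep (α t : ℂ) : Prop :=
  ∀ a b c : ℂ, IsAlgebraic ℚ a → IsAlgebraic ℚ b → IsAlgebraic ℚ c →
    a + b * Complex.exp α + c * t = 0 → a = 0 ∧ b = 0 ∧ c = 0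

/-- `x` and `y` satisfy a nonzero polynomial relation `∑ c i j x ^ i y ^ j = 0` with algebraic
coefficients, of degree at most `m` in `x` and at most `n` in `y`. -/
def Related (m n : ℕ) (x y : ℂ) : Prop :=
  ∃ c : ℕ → ℕ → ℂ, (∀ i j, IsAlgebraic ℚ (c i j)) ∧ (∃ i ≤ m, ∃ j ≤ n, c i j ≠ 0) ∧
    ∑ i ∈ range (m + 1), ∑ j ∈ range (n + 1), c i j * x ^ i * y ^ j = 0

/-- The algebraic numbers `α ≠ 0` for which `t` and `e ^ α` are related in bidegree `(m, n)`. -/
def Exceptional (m n : ℕ) (t : ℂ) : Set ℂ :=
  {α | α ≠ 0 ∧ IsAlgebraic ℚ α ∧ Related m n t (Complex.exp α)}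

/-- `N(m, n)`: the number of pairs `(a, b)` of coprime numbers with `1 ≤ a ≤ m`, `1 ≤ b ≤ n`. -/
def coprimeCount (m n : ℕ) : ℕ :=
  ((Icc 1 m ×ˢ Icc 1 n).filter fun p => Nat.Coprime p.1 p.2).card

theorem result :
    -- `π` is one of the numbers `t` below
    Transcendental ℚ (Real.pi : ℂ) ∧
    -- (1) linear relations: at most one exceptional `α`, and it is real
    (∀ t : ℝ, Transcendental ℚ (t : ℂ) → ∃ a : ℝ, ∀ α : ℂ, IsAlgebraic ℚ α → α ≠ 0 → α ≠ (a : ℂ) →
      LinIndep α (t : ℂ)) ∧
    -- (2) relations of bidegree at most `(m, n)`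
    (∀ t : ℂ, Transcendental ℚ t → ∀ m n : ℕ,
      (Exceptional m n t).Finite ∧ (Exceptional m n t).ncard ≤ 2 * coprimeCount m n) ∧
    (∀ m n : ℕ, (Exceptional m n (Complex.exp 1)).ncard = 2 * coprimeCount m n) :=
  ⟨Pool.Agent.H340R2.LW.transcendental_pi_complex,
    fun _ ht => Pool.Agent.TH507.ExpE.linear_case ht,
    fun _ ht m n => Pool.Agent.TH507.ExpE.exc_bound ht m n,
    fun m n => Pool.Agent.TH507.ExpE.exc_e m n⟩

end Pool.Agent.Results.MP_58e087_nt.ExceptionalExponents
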