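import Pool.Agent.TH358.PE.LW4

/-!
# The Lindemann-Weierstrass theorem over finitely generated fields

Let `S` be a finite set of complex numbers, for instance `S = {π}`. There is a finitely generated
group `Γ` of algebraic numbers such that, with `L` the field generated by all algebraic numbers,
the set `S` and the numbers `e ^ γ`, `γ ∈ Γ`: for algebraic numbers `β_1, ..., β_n`, the numbers
`e ^ β_1, ..., e ^ β_n` are linearly independent over `L` if and only if the `β_i` are pairwise
incongruent modulo `Γ`. (For `S = ∅`, `Γ = 0` this is the theorem of Lindemann and Weierstrass.)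

For `S = {π}`, `n = 2`, `β = (0, α)`: for every algebraic `α` not in `Γ` there is no relation
`a + b e ^ α = 0` with `a`, `b` in `L`, not both zero; in particular `1, e ^ α, π` are linearly
independent over the algebraic numbers.

Proof. Let `Ω` be the field generated by all `e ^ α`, `α` algebraic, `t` a maximal subset of `S`
that is algebraically independent over `Ω`, and `θ_1, ..., θ_D` a basis of `Ω (S)` over `Ω (t)`.
All structure constants of the `s θ_m`, `s ∈ S`, lie in the field `E` generated by `t` and `e ^ γ`,
`γ ∈ Γ`, for a suitable finitely generated group `Γ`. The `E`-span of the `θ_m` is then mapped to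
itself by all elements of `L`, and a relation over `L` between the `e ^ β_i` splits into relations
over `E`. The ring generated by `t` and all `e ^ α` has the `t ^ ν e ^ α` as a basis over the
algebraic numbers by the theorem of Lindemann and Weierstrass.
-/

set_option autoImplicit false

namespace Pool.Agent.Results.MP_58e087_nt.LindemannWeierstrassOverFields

theorem result :
    ∀ S : Finset ℂ,
      -- a finitely generated group `Γ` of algebraic numbers
      ∃ Γ : AddSubgroup ℂ, Γ.FG ∧ (∀ γ ∈ Γ, IsAlgebraic ℚ γ) ∧
        -- the field `L` generated by the algebraic numbers, `S` and the `e ^ γ`, `γ ∈ Γ`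
        ∀ L : Subfield ℂ,
          L = Subfield.closure ({z : ℂ | IsAlgebraic ℚ z} ∪ (↑S ∪ Complex.exp '' (Γ : Set ℂ))) →
          ∀ (n : ℕ) (β : Fin n → ℂ), (∀ i, IsAlgebraic ℚ (β i)) →
            (LinearIndependent L (fun i => Complex.exp (β i)) ↔
              ∀ i j, i ≠ j → β i - β j ∉ Γ) :=
  fun S => Pool.Agent.TH358.PE.lw_fields S

end Pool.Agent.Results.MP_58e087_nt.LindemannWeierstrassOverFields
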