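import Pool.Agent.TH647.NR.Lin
import Pool.Agent.TH647.NR.Sharp2

/-!
# Near relations between `1`, `e` and an arbitrary real number: a sharp threshold
-/

set_option autoImplicit false

namespace Pool.Agent.Results.MP_58e087_nt.NearRelations

open Real Filter

/-- The height `max (|a|, |b|, |c|)` of the integer vector `v = (a, b, c)`. -/
noncomputable def height (v : ℤ × ℤ × ℤ) : ℝ :=
  max |(v.1 : ℝ)| (max |(v.2.1 : ℝ)| |(v.2.2 : ℝ)|)

/-- The primitive integer vectors `v = (a, b, c)`, `c > 0`, of height at most `X` with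
`|a + b e + c t| ≤ (height v) ^ (-w)`. -/
def Near (t w X : ℝ) : Set (ℤ × ℤ × ℤ) :=
  {v | 0 < v.2.2 ∧ Int.gcd v.1 (Int.gcd v.2.1 v.2.2) = 1 ∧ height v ≤ X ∧
    |(v.1 : ℝ) + v.2.1 * exp 1 + v.2.2 * t| ≤ height v ^ (-w)}

open Pool.Agent.TH647.NR Pool.Agent.W472.AC

/-- passage to the notation of the library -/
def φ (v : ℤ × ℤ × ℤ) : (Fin 2 → ℤ) × ℤ := (![v.1, v.2.1], v.2.2)

lemma φ_inj : Function.Injective φ := by
  rintro ⟨a, b, c⟩ ⟨a', b', c'⟩ h
  have h1 := congrArg Prod.fst h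
  have h2 := congrArg Prod.snd h
  have h3 := congrFun h1 0
  have h4 := congrFun h1 1
  simp only [φ, Matrix.cons_val_zero, Matrix.cons_val_one] at h2 h3 h4
  rw [h2, h3, h4]

lemma norm_φ (v : ℤ × ℤ × ℤ) : ‖φ v‖ = height v := by
  have h1 : ‖(![v.1, v.2.1] : Fin 2 → ℤ)‖ = max |(v.1 : ℝ)| |(v.2.1 : ℝ)| := by
    apply le_antisymm
    · refine (pi_norm_le_iff_of_nonneg (by positivity)).2 fun i => ?_
      fin_cases i
      · exact le_max_left _ _
      · exact le_max_right _ _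
    · refine max_le ?_ ?_
      · exact norm_le_pi_norm (![v.1, v.2.1] : Fin 2 → ℤ) 0
      · exact norm_le_pi_norm (![v.1, v.2.1] : Fin 2 → ℤ) 1
  unfold φ height
  rw [Prod.norm_def, h1, max_assoc]
  rfl

lemma prim_φ (v : ℤ × ℤ × ℤ) (h : Int.gcd v.1 (Int.gcd v.2.1 v.2.2) = 1) : Prim (φ v) := by
  intro d hd hd2
  have h0 : d ∣ v.1 := hd 0
  have h1 : d ∣ v.2.1 := hd 1
  have h2 : d ∣ ((Int.gcd v.2.1 v.2.2 : ℕ) : ℤ) := Int.dvd_coe_gcd h1 hd2
  have h3 := Int.dvd_coe_gcd h0 h2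
  rw [h] at h3
  exact isUnit_of_dvd_one (by simpa using h3)

lemma irr_e : Irrational (exp 1) := by
  rintro ⟨q, hq⟩
  obtain ⟨c, hc, hm⟩ := e_meas 1 ![0, 1] (by
      intro i j h
      fin_cases i <;> fin_cases j <;> simp_all) (by simp) (by
      intro i
      fin_cases i <;> simp) 1 one_pos
  have hd : (q.den : ℝ) ≠ 0 := by exact_mod_cast q.den_nz
  have h1 := hm ![-q.num, q.den] (by
      intro h
      have := congrFun h 1
      simp at this) (max 1 (max |((-q.num : ℤ) : ℝ)| |((q.den : ℤ) : ℝ)|)) (le_max_left _ _) (by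
      intro i
      fin_cases i
      · exact (le_max_left _ _).trans (le_max_right _ _)
      · exact (le_max_right _ _).trans (le_max_right _ _))
  rw [Fin.sum_univ_two] at h1
  have h2 : ((![-q.num, (q.den : ℤ)] : Fin 2 → ℤ) 0 : ℝ) * exp ((![0, 1] : Fin 2 → ℤ) 0) +
      ((![-q.num, (q.den : ℤ)] : Fin 2 → ℤ) 1 : ℝ) * exp ((![0, 1] : Fin 2 → ℤ) 1) = 0 := by
    simp only [Matrix.cons_val_zero, Matrix.cons_val_one, Int.cast_neg, Int.cast_zero, Real.exp_zero,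
      Int.cast_one, Int.cast_natCast]
    rw [← hq, Rat.cast_def]
    field_simp
    ring
  rw [h2, abs_zero, mul_zero] at h1
  linarith

/-- **Near relations between `1`, `e`, `t`.** -/
theorem result :
    (∀ t w ρ : ℝ, 3 < w → 1 < ρ → ρ < (w - 1) / 2 → ∃ C : ℝ, ∀ X : ℝ, 3 ≤ X →
      (Near t w X).Finite ∧ ((Near t w X).ncard : ℝ) ≤ log (log X) / log ρ + C) ∧
    (∀ w : ℝ, w < 3 → ∃ δ : ℝ, 0 < δ ∧ ∀ᶠ t : ℝ in residual ℝ, ∃ᶠ X : ℝ in atTop,
      (Near t w X).Finite ∧ X ^ δ ≤ ((Near t w X).ncard : ℝ)) := by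
  have hfin : ∀ t w X : ℝ, (Near t w X).Finite := by
    intro t w X
    refine ((finite_ball (m := 1) X).preimage (φ_inj.injOn)).subset fun v hv => ?_
    show ‖φ v‖ ≤ X
    rw [norm_φ]
    exact hv.2.2.1
  refine ⟨fun t w ρ hw hρ hρw => ?_, fun w hw => ?_⟩
  · -- choose `ε`
    obtain ⟨ε, hε⟩ : ∃ ε : ℝ, ε = min ((w - 3) / 4) ((w - 1 - 2 * ρ) / (2 * (ρ + 1))) := ⟨_, rfl⟩
    have hρ2 : 0 < w - 1 - 2 * ρ := by
      rw [lt_div_iff₀ (by norm_num)] at hρw
      linarith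
    have hε0 : 0 < ε := by
      rw [hε]
      refine lt_min (by linarith) (div_pos hρ2 (by linarith))
    have hε1 : ε ≤ (w - 3) / 4 := by rw [hε]; exact min_le_left _ _
    have hε2 : ε * (2 * (ρ + 1)) ≤ w - 1 - 2 * ρ := by
      have : ε ≤ (w - 1 - 2 * ρ) / (2 * (ρ + 1)) := by rw [hε]; exact min_le_right _ _
      rwa [le_div_iff₀ (by linarith)] at this
    obtain ⟨c, hc, hm⟩ := e_meas 1 ![0, 1] (by
      intro i j h
      fin_cases i <;> fin_cases j <;> simp_all) (by simp) (by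
      intro i
      fin_cases i <;> simp) ε hε0
    obtain ⟨C, hC⟩ := sparse (m := 1) (fun i => Real.exp ((![0, 1] : Fin 2 → ℤ) i)) ((1 : ℕ) + ε) c
      (by push_cast; linarith) hc hm t w ρ (by push_cast; linarith) hρ (by
        push_cast
        rw [lt_div_iff₀ (by linarith)]
        nlinarith)
    refine ⟨C, fun X hX => ⟨hfin t w X, ?_⟩⟩
    obtain ⟨h1, h2⟩ := hC X hX
    refine le_trans ?_ h2
    have h3 := Set.ncard_le_ncard_of_injOn (s := Near t w X) φ (fun v hv => ?_)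
      (φ_inj.injOn) h1
    · exact_mod_cast h3
    · refine ⟨⟨hv.1, prim_φ v hv.2.1, ?_⟩, ?_⟩
      · rw [norm_φ]
        have e1 : lin (fun i => Real.exp ((![0, 1] : Fin 2 → ℤ) i)) t (φ v) =
            (v.1 : ℝ) + v.2.1 * exp 1 + v.2.2 * t := by
          unfold lin φ
          rw [Fin.sum_univ_two]
          simp
        rw [e1]
        exact hv.2.2.2
      · show ‖φ v‖ ≤ X
        rw [norm_φ]
        exact hv.2.2.1
  · obtain ⟨δ, hδ, h⟩ := many (ξ := exp 1) irr_e w hw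
    refine ⟨δ, hδ, ?_⟩
    filter_upwards [h] with t ht
    refine ht.mono fun X hX => ⟨hfin t w X, ?_⟩
    obtain ⟨F, hF, hv⟩ := hX
    refine hF.trans ?_
    have h1 : (F : Set (ℤ × ℤ × ℤ)) ⊆ Near t w X := fun v hvF =>
      ⟨(hv v hvF).1.1, (hv v hvF).1.2, (hv v hvF).2.1, (hv v hvF).2.2⟩
    have h2 := Set.ncard_le_ncard h1 (hfin t w X)
    rw [Set.ncard_coe_finset] at h2
    exact_mod_cast h2

end Pool.Agent.Results.MP_58e087_nt.NearRelations
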