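import Pool.Agent.TH711.ES.Cx5

/-!
# The rational functions of a transcendental number which are exponential sums

An exponential sum is a finite sum `∑ b e^α` with algebraic exponents and coefficients. A relation
`a + b e + c π = 0` makes `π` an exponential sum. We determine, for every transcendental number `t`
(for example `t = π`), the shape of the set of all rational functions of `t`, with algebraic
coefficients, which are exponential sums.
-/

open IntermediateField Polynomial Pool.Agent.TH711.ES

namespace Pool.Agent.Results.MP_58e087_nt.RationalFunctionsOfPi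

/-- `z` is a finite sum `∑ b e^α` with algebraic numbers `b` and (distinct) algebraic numbers `α`. -/
def IsExpSum (z : ℂ) : Prop := ∃ c : Qb →₀ Qb, expSum c = z

/-- `z` is an exponential sum and a rational function of `t` with algebraic coefficients. -/
def InR (t z : ℂ) : Prop := IsExpSum z ∧ z ∈ Qb⟮t⟯

/-- `z` is a finite sum `∑ b e^(kα)` with integers `k` and algebraic `b`. -/
def IsLaurent (α z : ℂ) : Prop := z ∈ Algebra.adjoin Qb {Complex.exp α, Complex.exp (-α)}

theorem result :
    ∀ t : ℂ, Transcendental ℚ t →
      -- the rational functions of `t` which are exponential sums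
      ((∀ z, InR t z ↔ IsAlgebraic ℚ z) ∨
        (∃ α : ℂ, IsAlgebraic ℚ α ∧ α ≠ 0 ∧ ∀ z, InR t z ↔ IsLaurent α z) ∨
        ∃ g : Qb →₀ Qb, Transcendental ℚ (expSum g) ∧
          ∀ z, InR t z ↔ ∃ P : Qb[X], aeval (expSum g) P = z) ∧
      -- the polynomials
      (∃ h : Qb[X], ∀ P : Qb[X], IsExpSum (aeval t P) ↔ ∃ Q : Qb[X], P = Q.comp h) ∧
      (∀ P Q : Qb[X], P.natDegree.Coprime Q.natDegree → IsExpSum (aeval t P) →
        IsExpSum (aeval t Q) → IsExpSum t) ∧
      -- the case of a linear relation between `1`, `e^α` and `t`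
      ∀ α a b c : ℂ, IsAlgebraic ℚ α → IsAlgebraic ℚ a → IsAlgebraic ℚ b → IsAlgebraic ℚ c →
        c ≠ 0 → a + b * Complex.exp α + c * t = 0 → ∀ z, InR t z ↔ IsLaurent α z :=
  fun t ht => ⟨rational_trichotomy ht, poly_trichotomy ht,
    fun P Q hcop hP hQ => mem_of_coprime ht hP hQ hcop,
    fun α a b c hα ha hb hc hc0 h z => linear_relation ht hα ha hb hc hc0 h z⟩

end Pool.Agent.Results.MP_58e087_nt.RationalFunctionsOfPi
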